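import Pool.Agent.MP_41ddaf_co.H90.Main

set_option autoImplicit false

namespace Pool.Agent.Results.MP_41ddaf_co.NoAutomorphism

/-- Euclidean 3-space. -/
abbrev Space : Type := EuclideanSpace ℝ (Fin 3)

/-- A 3-polytope: the convex hull of finitely many points that do not lie in one plane. -/
def IsPolytope3 (P : Set Space) : Prop :=
  ∃ S : Set Space, S.Finite ∧ ¬ Coplanar ℝ S ∧ P = convexHull ℝ S

/-- A facet: a face, cut out by a supporting hyperplane, of dimension two. -/
def IsFacet (P F : Set Space) : Prop :=
  IsExposed ℝ P F ∧ Module.finrank ℝ (vectorSpan ℝ F) = 2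

/-- The face lattice: all faces of `P`, the empty face and `P` included, ordered by inclusion. -/
abbrev Face (P : Set Space) : Type := {F : Set Space // IsExposed ℝ P F}

/-- A congruent-faced 3-polytope whose only symmetry is the identity and whose face lattice has
no automorphism other than the identity. -/
theorem result : ∃ P : Set Space, IsPolytope3 P ∧
    (∀ F G : Set Space, IsFacet P F → IsFacet P G → ∃ T : Space ≃ᵢ Space, T '' F = G) ∧
    (∀ T : Space ≃ᵢ Space, T '' P = P → ∀ x, T x = x) ∧
    ∀ φ : Face P ≃o Face P, ∀ F, φ F = F := by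
  obtain ⟨p, ⟨h1, h2, h3⟩, h4⟩ := Pool.Agent.MP_41ddaf_co.H90.main
  have ne : ∀ F : Set Space, Module.finrank ℝ (vectorSpan ℝ F) = 2 → F.Nonempty := by
    intro F hF
    by_contra h
    rw [Set.not_nonempty_iff_eq_empty.1 h, vectorSpan_empty, finrank_bot] at hF
    exact absurd hF (by norm_num)
  refine ⟨convexHull ℝ (Set.range p), ⟨Set.range p, Set.finite_range p, fun hc => ?_, rfl⟩,
    fun F G hF hG => h2 F G (hF.1 (ne F hF.2)) hF.2 (hG.1 (ne G hG.2)) hG.2,
    fun T hT x => by rw [h3 T hT]; rfl, h4⟩
  have ht := interior_convexHull_nonempty_iff_affineSpan_eq_top.1 h1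
  have hv : vectorSpan ℝ (Set.range p) = ⊤ := by
    rw [← direction_affineSpan, ht, AffineSubspace.direction_top]
  rw [coplanar_iff_finrank_le_two, hv, finrank_top, finrank_euclideanSpace_fin] at hc
  exact absurd hc (by norm_num)

end Pool.Agent.Results.MP_41ddaf_co.NoAutomorphism
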